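import Pool.Agent.Lib.helper7.CXHam

namespace Pool.Agent.H.MP_2e8011_lc
open Pool.Agent.Lib.CX Pool.Agent.Lib.helper7

variable {V : Type} [DecidableEq V]

abbrev P (V : Type) := V × ℕ × ℕ

def nxt (n j : ℕ) (u : P V) : P V :=
  if u.2.2 + 1 < 2 * j + 10 then (u.1, u.2.1, u.2.2 + 1) else (u.1, if u.2.1 + 1 < n then u.2.1 + 1 else 0, 0)

def prv (n j : ℕ) (u : P V) : P V :=
  if u.2.2 = 0 then (u.1, if u.2.1 = 0 then n - 1 else u.2.1 - 1, 2 * j + 9) else (u.1, u.2.1, u.2.2 - 1)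

def chord (m : V) (j : ℕ) (C : T3 V) (u v : P V) : Prop :=
  u.1 = m ∧ u.2.1 = v.2.1 ∧
    ((u.2.2 = j + 1 ∧ v.1 = C.1 ∧ v.2.2 = j + 1) ∨ (u.2.2 = j + 2 ∧ v.1 = C.1 ∧ v.2.2 = j + 2) ∨
     (u.2.2 = j + 4 ∧ v.1 = C.2.1 ∧ v.2.2 = j + 4) ∨ (u.2.2 = j + 5 ∧ v.1 = C.2.1 ∧ v.2.2 = j + 5) ∨
     (u.2.2 = j + 1 ∧ v.1 = C.2.2 ∧ v.2.2 = j + 7) ∨ (u.2.2 = j + 4 ∧ v.1 = C.2.2 ∧ v.2.2 = j + 8) ∨
     (u.2.2 = j + 2 ∧ v.1 = m ∧ v.2.2 = j + 5))

instance (m : V) (j C u v) : Decidable (chord m j C u v) := by unfold chord; infer_instance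

def vs (m : V) (j : ℕ) (ψ : List (T3 V)) : List (P V) :=
  (m :: ψ.flatMap T3.vars) ×ˢ List.range ψ.length ×ˢ List.range (2 * j + 10)

def es (m : V) (j : ℕ) (ψ : List (T3 V)) : List (P V × P V) :=
  (vs m j ψ ×ˢ vs m j ψ).filter fun e =>
    decide (e.2 = nxt ψ.length j e.1 ∨ chord m j (ψ.getD e.1.2.1 (m, m, m)) e.1 e.2)

def gr (m : V) (j : ℕ) (ψ : List (T3 V)) : Gr := mkGr (vs m j ψ) (es m j ψ)

theorem pt_gr [Enc V] (m : V) (j : ℕ) : PT (gr m j) := by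
  unfold gr es vs nxt chord T3.vars; fun_prop

omit [DecidableEq V] in
theorem mem_vs {m : V} {j ψ} {u : P V} :
    u ∈ vs m j ψ ↔ (u.1 = m ∨ u.1 ∈ ψ.flatMap T3.vars) ∧ u.2.1 < ψ.length ∧ u.2.2 < 2 * j + 10 := by
  obtain ⟨r, i, t⟩ := u
  simp only [vs, List.mem_product, List.mem_range, List.mem_cons]

omit [DecidableEq V] in
theorem nxt_prv {n j} {u v : P V} (hu : u.2.1 < n ∧ u.2.2 < 2 * j + 10) (hv : v.2.1 < n ∧ v.2.2 < 2 * j + 10) :
    u = nxt n j v ↔ v = prv n j u := by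
  obtain ⟨r, i, t⟩ := u
  obtain ⟨r', i', t'⟩ := v
  simp only [nxt, prv] at *
  grind

theorem na_iff {m : V} {j ψ} {u v : P V} (hu : u ∈ vs m j ψ) (hv : v ∈ vs m j ψ) :
    NA (es m j ψ) u v ↔ u ≠ v ∧ (v = nxt ψ.length j u ∨ v = prv ψ.length j u ∨
      chord m j (ψ.getD u.2.1 (m, m, m)) u v ∨ chord m j (ψ.getD u.2.1 (m, m, m)) v u) := by
  have := nxt_prv (mem_vs.1 hu).2 (mem_vs.1 hv).2
  have e : chord m j (ψ.getD v.2.1 (m, m, m)) v u ↔ chord m j (ψ.getD u.2.1 (m, m, m)) v u :=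
    ⟨fun h => h.2.1 ▸ h, fun h => h.2.1.symm ▸ h⟩
  simp only [NA, es, List.mem_filter, List.mem_product, hu, hv, decide_eq_true_eq, true_and, this, e]
  tauto

def Cover (m : V) (ψ : List (T3 V)) : Prop :=
  ∃ y : ℕ → Prop, ∀ r ∈ ψ.flatMap T3.vars, ∃ i < ψ.length,
    (¬y i ∧ ((ψ.getD i (m, m, m)).1 = r ∨ (ψ.getD i (m, m, m)).2.1 = r)) ∨ (y i ∧ (ψ.getD i (m, m, m)).2.2 = r)

omit [DecidableEq V] in
theorem mem_rows {m : V} {ψ : List (T3 V)} {i} (h : i < ψ.length) : (ψ.getD i (m, m, m)).1 ∈ ψ.flatMap T3.vars ∧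
    (ψ.getD i (m, m, m)).2.1 ∈ ψ.flatMap T3.vars ∧ (ψ.getD i (m, m, m)).2.2 ∈ ψ.flatMap T3.vars := by
  have : ψ.getD i (m, m, m) ∈ ψ := by rw [List.getD_eq_getElem _ _ h]; exact List.getElem_mem _
  exact ⟨List.mem_flatMap.2 ⟨_, this, by simp [T3.vars]⟩, List.mem_flatMap.2 ⟨_, this, by simp [T3.vars]⟩,
    List.mem_flatMap.2 ⟨_, this, by simp [T3.vars]⟩⟩

theorem cover_of_ham {m : V} {j ψ} (hj : 1 ≤ j) (hm : m ∉ ψ.flatMap T3.vars) (h : Ham (gr m j ψ).G) : Cover m ψ := by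
  obtain ⟨x, h1, h2, h3, h4⟩ := mk_ham_to h
  have nb : ∀ u v, x u v → v = nxt ψ.length j u ∨ v = prv ψ.length j u ∨
      chord m j (ψ.getD u.2.1 (m, m, m)) u v ∨ chord m j (ψ.getD u.2.1 (m, m, m)) v u :=
    fun u v h => ((na_iff (h2 u v h).1 (h2 u v h).2.1).1 (h2 u v h).2.2).2
  have three : ∀ u a b c, x u a → x u b → x u c → a = b ∨ a = c ∨ b = c := fun u a b c ha hb hc => by
    obtain ⟨p, q, -, e⟩ := h3 u (h2 _ _ ha).1
    grind
  have forced : ∀ r i t, (r, i, t + 1) ∈ vs m j ψ → (t + 1 = j ∨ t = j + 2 ∨ t = j + 5 ∨ t = j + 8) →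
      x (r, i, t + 1) (nxt ψ.length j (r, i, t + 1)) ∧ x (r, i, t + 1) (r, i, t) := fun r i t hu ht => by
    obtain ⟨p, q, hpq, e⟩ := h3 _ hu
    have : ∀ w, x (r, i, t + 1) w → w = nxt ψ.length j (r, i, t + 1) ∨ w = (r, i, t) := fun w hw => by
      rcases nb _ _ hw with h | h | h | h
      · exact .inl h
      · exact .inr h
      · simp only [chord] at h; omega
      · simp only [chord] at h; omega
    have a := this p ((e p).2 (.inl rfl))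
    have b := this q ((e q).2 (.inr rfl))
    rw [e, e]
    rcases a with rfl | rfl <;> rcases b with rfl | rfl <;> simp_all
  have one : ∀ u f d a, x f u → (∀ w, x u w → w = f ∨ w = d ∨ w = a) → f ≠ d → f ≠ a → d ≠ a →
      (x a u ↔ ¬x u d) := fun u f d a hf h b c e => by
    obtain ⟨p, q, hpq, e⟩ := h3 u (h2 _ _ hf).2.1
    have := h p ((e p).2 (.inl rfl))
    have := h q ((e q).2 (.inr rfl))
    have := (e f).1 (h1 _ _ hf)
    rw [show x a u ↔ x u a from ⟨h1 _ _, h1 _ _⟩, e, e]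
    grind
  have sw : ∀ r i t t1 t2, r ∈ ψ.flatMap T3.vars → i < ψ.length →
      (t = j ∧ t1 = j + 1 ∧ t2 = j + 2) ∨ (t = j + 3 ∧ t1 = j + 4 ∧ t2 = j + 5) ∨
        (t = j + 6 ∧ t1 = j + 1 ∧ t2 = j + 4) →
      (x (m, i, t1) (r, i, t + 1) ↔ x (m, i, t2) (r, i, t + 2)) := fun r i t t1 t2 hr hi ht => by
    have hr' : r ≠ m := fun e => hm (e ▸ hr)
    obtain ⟨t, rfl⟩ : ∃ s, t = s + 1 := ⟨t - 1, by omega⟩
    have a := (forced r i t (mem_vs.2 ⟨.inr hr, hi, by simp only; omega⟩) (by omega)).1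
    have b := (forced r i (t + 3) (mem_vs.2 ⟨.inr hr, hi, by simp only; omega⟩) (by omega)).2
    rw [nxt, if_pos (by simp only; omega)] at a
    refine (one (r, i, t + 2) (r, i, t + 1) (r, i, t + 3) _ a ?_ (by simp) (by simp [hr']) (by simp [hr'])).trans
      ((not_congr ⟨h1 _ _, h1 _ _⟩).trans
        (one (r, i, t + 3) (r, i, t + 4) (r, i, t + 2) _ b ?_ (by simp) (by simp [hr']) (by simp [hr'])).symm)
    all_goals
      rintro ⟨r', i', t'⟩ hw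
      have := nb _ _ hw
      simp only [chord, nxt, prv, hr'] at this
      clear nb three forced one h1 h2 h3 h4 h a b hw
      grind
  refine ⟨fun i => x (m, i, j + 1) ((ψ.getD i (m, m, m)).2.2, i, j + 7), fun r hr => ?_⟩
  have hn : 0 < ψ.length := List.length_pos_iff.2 (by rintro rfl; simp at hr)
  obtain ⟨⟨r', i, t⟩, ⟨r'', i', t'⟩, rfl, e2, e3⟩ := h4 (fun u => u.1 = r) (r, 0, 0)
    (mem_vs.2 ⟨.inr hr, hn, by simp⟩) (m, 0, 0) (mem_vs.2 ⟨.inl rfl, hn, by simp⟩) rfl (fun e => hm ((show m = r from e) ▸ hr))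
  have hi : i < ψ.length := (mem_vs.1 (h2 _ _ e3).1).2.1
  refine ⟨i, hi, ?_⟩
  obtain ⟨b1, b2, b3⟩ := mem_rows (m := m) hi
  have hr' : r' ≠ m := fun e => hm (e ▸ hr)
  have a1 := sw _ i _ _ _ b1 hi (.inl ⟨rfl, rfl, rfl⟩)
  have a2 := sw _ i _ _ _ b2 hi (.inr (.inl ⟨rfl, rfl, rfl⟩))
  have a3 := sw _ i _ _ _ b3 hi (.inr (.inr ⟨rfl, rfl, rfl⟩))
  obtain ⟨s, rfl⟩ : ∃ s, j = s + 1 := ⟨j - 1, by omega⟩
  have c1 := (forced m i s (mem_vs.2 ⟨.inl rfl, hi, by simp only; omega⟩) (by omega)).1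
  have c2 := (forced m i (s + 3) (mem_vs.2 ⟨.inl rfl, hi, by simp only; omega⟩) (by omega)).1
  rw [nxt, if_pos (by simp only; omega)] at c1 c2
  have d1 := three _ _ ((ψ.getD i (m, m, m)).1, i, s + 2) ((ψ.getD i (m, m, m)).2.2, i, s + 8) (h1 _ _ c1)
  have d2 := three _ _ ((ψ.getD i (m, m, m)).2.1, i, s + 5) ((ψ.getD i (m, m, m)).2.2, i, s + 9) (h1 _ _ c2)
  have e4 := h1 _ _ e3
  have := nb _ _ e3
  simp only [chord, nxt, prv, hr'] at this
  beta_reduce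
  generalize ψ.getD i (m, m, m) = C at *
  clear nb three forced one sw h1 h2 h3 h4 h b1 b2 b3 c1 c2
  grind

theorem cyc (n i0 : ℕ) (Q : ℕ → Prop) (h : ∀ i, i + 1 < n → i ≠ i0 → (Q i ↔ Q (i + 1))) :
    (∀ i < n, i ≤ i0 → (Q i ↔ Q 0)) ∧ ∀ i < n, i0 < i → (Q i ↔ Q (n - 1)) := by
  refine ⟨fun i => ?_, fun i hi h0 => ?_⟩
  · induction i with
    | zero => simp
    | succ i ih => exact fun a b => (h i a (by omega)).symm.trans (ih (by omega) (by omega))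
  · obtain ⟨k, rfl⟩ : ∃ k, n = i + k + 1 := ⟨n - i - 1, by omega⟩
    clear hi
    induction k with
    | zero => simp
    | succ k ih => exact (ih fun a b c => h a (by omega) c).trans (h (i + k) (by omega) (by omega))

omit [DecidableEq V] in
theorem row {n j i0 t0 : ℕ} (r : V) (S : P V → Prop) (h0 : t0 < 2 * j + 9)
    (h : ∀ i < n, ∀ t < 2 * j + 10, ¬(i = i0 ∧ t = t0) → (S (r, i, t) ↔ S (nxt n j (r, i, t)))) :
    ∀ i < n, ∀ t < 2 * j + 10, (S (r, i, t) ↔ S (r, 0, 0)) := by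
  have a : ∀ i < n, _ := fun i hi => cyc (2 * j + 10) (if i = i0 then t0 else 2 * j + 10) (fun t => S (r, i, t))
    fun t h1 h2 => by simpa [nxt, h1] using h i hi t (by omega) (by grind)
  have b : ∀ i < n, (S (r, i, 2 * j + 9) ↔ S (r, if i + 1 < n then i + 1 else 0, 0)) := fun i hi => by
    simpa [nxt] using h i hi (2 * j + 9) (by omega) (by omega)
  have c := cyc n i0 (fun i => S (r, i, 0)) fun i h1 h2 =>
    ((a i (by omega)).1 (2 * j + 9) (by omega) (by simp [h2])).symm.trans (by simpa [h1] using b i (by omega))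
  have d : ∀ i < n, (S (r, i, 0) ↔ S (r, 0, 0)) := fun i hi => by
    by_cases e : i ≤ i0
    · exact c.1 i hi e
    · refine (c.2 i hi (by omega)).trans (((a _ (by omega)).1 (2 * j + 9) (by omega) ?_).symm.trans ?_)
      · rw [if_neg (by omega)]; omega
      · simpa [show ¬(n - 1 + 1 < n) by omega] using b (n - 1) (by omega)
  intro i hi t ht
  by_cases e : t ≤ if i = i0 then t0 else 2 * j + 10
  · exact ((a i hi).1 t ht e).trans (d i hi)
  · exact ((a i hi).2 t ht (by omega)).trans ((b i hi).trans (d _ (by split <;> omega)))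

open Classical in
noncomputable def RR (m : V) (n j : ℕ) (C : ℕ → T3 V) (o : ℕ → ℕ → Prop) (u : P V) : P V :=
  if u.1 = m then
    (if u.2.2 = j + 1 ∧ o u.2.1 1 then ((C u.2.1).1, u.2.1, j + 1)
    else if u.2.2 = j + 1 ∧ o u.2.1 3 then ((C u.2.1).2.2, u.2.1, j + 7)
    else if u.2.2 = j + 4 ∧ o u.2.1 2 then ((C u.2.1).2.1, u.2.1, j + 4)
    else if u.2.2 = j + 4 ∧ o u.2.1 3 then ((C u.2.1).2.2, u.2.1, j + 8) else nxt n j u)
  else if u.2.2 = j + 1 ∧ u.1 = (C u.2.1).1 ∧ o u.2.1 1 then (m, u.2.1, j + 1)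
  else if u.2.2 = j + 4 ∧ u.1 = (C u.2.1).2.1 ∧ o u.2.1 2 then (m, u.2.1, j + 4)
  else if u.2.2 = j + 7 ∧ u.1 = (C u.2.1).2.2 ∧ o u.2.1 3 then (m, u.2.1, j + 1) else nxt n j u

open Classical in
noncomputable def LL (m : V) (n j : ℕ) (C : ℕ → T3 V) (o : ℕ → ℕ → Prop) (u : P V) : P V :=
  if u.1 = m then
    (if u.2.2 = j + 2 ∧ o u.2.1 1 then ((C u.2.1).1, u.2.1, j + 2)
    else if u.2.2 = j + 2 ∧ o u.2.1 3 then (m, u.2.1, j + 5)
    else if u.2.2 = j + 5 ∧ o u.2.1 2 then ((C u.2.1).2.1, u.2.1, j + 5)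
    else if u.2.2 = j + 5 ∧ o u.2.1 3 then (m, u.2.1, j + 2) else prv n j u)
  else if u.2.2 = j + 2 ∧ u.1 = (C u.2.1).1 ∧ o u.2.1 1 then (m, u.2.1, j + 2)
  else if u.2.2 = j + 5 ∧ u.1 = (C u.2.1).2.1 ∧ o u.2.1 2 then (m, u.2.1, j + 5)
  else if u.2.2 = j + 8 ∧ u.1 = (C u.2.1).2.2 ∧ o u.2.1 3 then (m, u.2.1, j + 4) else prv n j u

theorem loc {m : V} {n j C o} (ρ : V → Prop) (hC : ∀ i < n, ρ (C i).1 ∧ ρ (C i).2.1 ∧ ρ (C i).2.2) (hm : ¬ρ m)
    (ho : ∀ i, o i 3 → ¬o i 1 ∧ ¬o i 2) {u : P V} (hu : (u.1 = m ∨ ρ u.1) ∧ u.2.1 < n ∧ u.2.2 < 2 * j + 10)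
    (v : P V) (hv : v = RR m n j C o u ∨ v = LL m n j C o u) :
    ((v.1 = m ∨ ρ v.1) ∧ v.2.1 < n ∧ v.2.2 < 2 * j + 10) ∧ (u ≠ v ∧ (v = nxt n j u ∨ v = prv n j u ∨
      chord m j (C u.2.1) u v ∨ chord m j (C u.2.1) v u)) ∧ (RR m n j C o v = u ∨ LL m n j C o v = u) := by
  obtain ⟨r, i, t⟩ := u
  have := hC i hu.2.1
  have := ho i
  have h1 : (C i).1 ≠ m ∧ (C i).2.1 ≠ m ∧ (C i).2.2 ≠ m := by grind
  clear hC ho
  rcases hv with hv | hv
  · simp only [RR, nxt] at hv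
    split_ifs at hv <;> subst hv <;> simp only [RR, LL, chord, nxt, prv] <;> grind
  · simp only [LL, prv] at hv
    split_ifs at hv <;> subst hv <;> simp only [RR, LL, chord, nxt, prv] <;> grind

theorem loc' {m : V} {n j C o} {u : P V} (hu : u.2.1 < n ∧ u.2.2 < 2 * j + 10) :
    RR m n j C o u ≠ LL m n j C o u := by
  obtain ⟨r, i, t⟩ := u
  intro h
  have h := congrArg (·.2.2) h
  simp only [RR, LL, nxt, prv, apply_ite (fun x : P V => x.2.2)] at h hu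
  split_ifs at h <;> omega

theorem ham_of_cover {m : V} {j ψ} (hm : m ∉ ψ.flatMap T3.vars) (hn : 0 < ψ.length) (h : Cover m ψ) :
    Ham (gr m j ψ).G := by
  obtain ⟨y, hy⟩ := h
  let C : ℕ → T3 V := fun i => ψ.getD i (m, m, m)
  have : ∀ r ∈ ψ.flatMap T3.vars, ∃ q : ℕ × ℕ, q.1 < ψ.length ∧ ((q.2 = 1 ∧ ¬y q.1 ∧ (C q.1).1 = r) ∨
      (q.2 = 2 ∧ ¬y q.1 ∧ (C q.1).2.1 = r) ∨ (q.2 = 3 ∧ y q.1 ∧ (C q.1).2.2 = r)) := fun r hr => by
    obtain ⟨i, hi, ⟨a, b | b⟩ | ⟨a, b⟩⟩ := hy r hr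
    exacts [⟨(i, 1), hi, .inl ⟨rfl, a, b⟩⟩, ⟨(i, 2), hi, .inr (.inl ⟨rfl, a, b⟩)⟩,
      ⟨(i, 3), hi, .inr (.inr ⟨rfl, a, b⟩)⟩]
  choose! q h1 h2 using this
  let o : ℕ → ℕ → Prop := fun i k => ∃ r ∈ ψ.flatMap T3.vars, q r = (i, k)
  have ho : ∀ i, o i 3 → ¬o i 1 ∧ ¬o i 2 := by
    rintro i ⟨r, hr, e⟩
    have := h2 r hr
    constructor <;> rintro ⟨r', hr', e'⟩ <;> have := h2 r' hr' <;> simp_all
  have key := fun u (hu : u ∈ vs m j ψ) => loc (n := ψ.length) (j := j) (C := C) (o := o) (· ∈ ψ.flatMap T3.vars)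
    (fun i hi => mem_rows hi) hm ho (mem_vs.1 hu)
  refine mk_ham_of _ _ (RR m ψ.length j C o) (LL m ψ.length j C o) (m, 0, 0) (mem_vs.2 ⟨.inl rfl, hn, by simp⟩)
    (fun u hu => ?_) fun S hS h0 => ?_
  · obtain ⟨a1, a2, a3⟩ := key u hu _ (.inl rfl)
    obtain ⟨b1, b2, b3⟩ := key u hu _ (.inr rfl)
    exact ⟨mem_vs.2 a1, mem_vs.2 b1, (na_iff hu (mem_vs.2 a1)).2 a2, (na_iff hu (mem_vs.2 b1)).2 b2,
      loc' (mem_vs.1 hu).2, a3, b3⟩
  have rw1 : ∀ r ∈ ψ.flatMap T3.vars, ∀ i < ψ.length, ∀ t < 2 * j + 10, (S (r, i, t) ↔ S (r, 0, 0)) := fun r hr => by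
    have hr' : r ≠ m := fun e => hm (e ▸ hr)
    refine row (i0 := (q r).1) (t0 := j + 3 * (q r).2 - 2) r S (by have := h2 r hr; omega) fun i hi t ht h => ?_
    rw [(hS _ (mem_vs.2 ⟨.inr hr, hi, ht⟩)).1, RR, if_neg hr', if_neg, if_neg, if_neg]
    all_goals
      rintro ⟨e1, e2, r', hr', e3⟩
      have := h2 r' hr'
      obtain rfl : r' = r := by simp_all
      simp only [e3, true_and] at h e1
      omega
  have rw0 : ∀ i < ψ.length, ∀ t < 2 * j + 10, (S (m, i, t) ↔ S (m, 0, 0)) := by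
    refine row (i0 := 0) (t0 := 0) m S (by omega) fun i hi t ht _ => ?_
    obtain ⟨b1, b2, b3⟩ := mem_rows (m := m) hi
    have a := fun t (ht : t < 2 * j + 10) => hS (m, i, t) (mem_vs.2 ⟨.inl rfl, hi, ht⟩)
    have a0 := (a t ht).1
    have a1 := (a (j + 1) (by omega)).1
    have a2 := a (j + 2) (by omega)
    have a3 := a (j + 3) (by omega)
    have a4 := (a (j + 4) (by omega)).1
    have a5 := (a (j + 5) (by omega)).2
    have c1 := rw1 _ b1 i hi (j + 1) (by omega)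
    have c2 := rw1 _ b1 i hi (j + 2) (by omega)
    have c3 := rw1 _ b2 i hi (j + 4) (by omega)
    have c4 := rw1 _ b2 i hi (j + 5) (by omega)
    have c5 := rw1 _ b3 i hi (j + 7) (by omega)
    have c6 := rw1 _ b3 i hi (j + 8) (by omega)
    have := ho i
    clear_value o
    simp only [RR, LL, nxt, prv, C, if_true] at a0 a1 a2 a3 a4 a5 ⊢
    generalize ψ.getD i (m, m, m) = D at *
    clear a rw1 hS key ho h1 h2 hy b1 b2 b3
    grind
  rintro ⟨r, i, t⟩ hu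
  obtain ⟨rfl | hr, hi, ht⟩ := mem_vs.1 hu
  · exact (rw0 i hi t ht).2 h0
  have hr' : r ≠ m := fun e => hm (e ▸ hr)
  have a := h2 r hr
  have b := (hS (r, (q r).1, j + 3 * (q r).2 - 2) (mem_vs.2 ⟨.inr hr, h1 r hr, by simp only; omega⟩)).1
  rw [rw1 r hr i hi t ht, ← rw1 r hr _ (h1 r hr) (j + 3 * (q r).2 - 2) (by omega), b]
  have c1 := (rw0 _ (h1 r hr) (j + 1) (by omega)).2 h0
  have c2 := (rw0 _ (h1 r hr) (j + 4) (by omega)).2 h0
  have d : o (q r).1 (q r).2 := ⟨r, hr, rfl⟩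
  clear_value o C
  simp only [RR, hr', if_false]
  clear rw0 rw1 hS key ho h1 h2 hy b
  grind
theorem no_copy {m : V} {j : ℕ} {ψ} (hj : 32 ≤ j) (p : ℕ → P V) (hp : ∀ k < j + 5, p k ∈ vs m j ψ)
    (inj : ∀ k < j + 5, ∀ l < j + 5, p k = p l → k = l) (h1 : ∀ k < j, NA (es m j ψ) (p k) (p (k + 1)))
    (h2 : NA (es m j ψ) (p 0) (p (j + 1))) (h3 : NA (es m j ψ) (p 0) (p (j + 2)))
    (h4 : NA (es m j ψ) (p j) (p (j + 3))) (h5 : NA (es m j ψ) (p j) (p (j + 4))) : False := by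
  have deg : ∀ a < j + 5, ∀ b < j + 5, ∀ c < j + 5, ∀ d < j + 5, NA (es m j ψ) (p a) (p b) →
      NA (es m j ψ) (p a) (p c) → NA (es m j ψ) (p a) (p d) → b ≠ c → b ≠ d → c ≠ d →
      (p a).1 ∈ m :: (ψ.getD (p a).2.1 (m, m, m)).vars ∧ j + 1 ≤ (p a).2.2 ∧ (p a).2.2 < j + 9 :=
    fun a ha b hb c hc d hd e1 e2 e3 n1 n2 n3 => by
      have := mt (inj b hb c hc) n1
      have := mt (inj b hb d hd) n2
      have := mt (inj c hc d hd) n3
      rw [na_iff (hp _ ‹_›) (hp _ ‹_›)] at e1 e2 e3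
      have : ∃ v, chord m j (ψ.getD (p a).2.1 (m, m, m)) (p a) v ∨ chord m j (ψ.getD (p a).2.1 (m, m, m)) v (p a) := by
        clear inj hp h1
        grind
      obtain ⟨v, h⟩ := this
      simp only [chord] at h
      simp only [T3.vars, List.mem_cons]
      clear inj hp h1 e1 e2 e3
      grind
  have d0 := deg 0 (by omega) 1 (by omega) (j + 1) (by omega) (j + 2) (by omega) (h1 0 (by omega)) h2 h3
    (by omega) (by omega) (by omega)
  obtain ⟨k, rfl⟩ : ∃ k, j = k + 1 := ⟨j - 1, by omega⟩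
  have d1 := deg (k + 1) (by omega) k (by omega) (k + 1 + 3) (by omega) (k + 1 + 4) (by omega)
    ⟨(h1 k (by omega)).1.symm, (h1 k (by omega)).2.symm⟩ h4 h5 (by omega) (by omega) (by omega)
  generalize k + 1 = j at *
  let Z : Finset (P V) := (m :: (ψ.getD (p 0).2.1 (m, m, m)).vars).toFinset ×ˢ {(p 0).2.1} ×ˢ Finset.Ico (j + 1) (j + 9)
  have hZ : ∀ u, u ∈ Z ↔ u.1 ∈ m :: (ψ.getD (p 0).2.1 (m, m, m)).vars ∧ u.2.1 = (p 0).2.1 ∧
      j + 1 ≤ u.2.2 ∧ u.2.2 < j + 9 := fun u => by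
    simp only [Z, Finset.mem_product, List.mem_toFinset, Finset.mem_singleton, Finset.mem_Ico]
  have inv : ∀ k ≤ j, (∀ l ≤ k, p l ∈ Z) ∨ ∃ l, k = l + 1 ∧
      ((j + 9 ≤ (p k).2.2 ∧ (p k).2.2 ≤ j + 8 + k ∧ p l = prv ψ.length j (p k)) ∨
        ((p k).2.2 ≤ j ∧ j + 1 ≤ (p k).2.2 + k ∧ p l = nxt ψ.length j (p k))) := fun k => by
    induction k with
    | zero => exact fun _ => .inl fun l hl => by rw [hZ, Nat.le_zero.1 hl]; exact ⟨d0.1, rfl, d0.2⟩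
    | succ k ih =>
      intro hk
      have e := ((na_iff (hp _ (by omega)) (hp _ (by omega))).1 (h1 k hk)).2
      rcases ih (by omega) with h | ⟨l, rfl, h⟩
      · have a := (hZ _).1 (h k le_rfl)
        by_cases c : p (k + 1) ∈ Z
        · exact .inl fun l hl => (Nat.lt_or_eq_of_le hl).elim (fun b => h l (by omega)) fun b => b ▸ c
        refine .inr ⟨k, rfl, ?_⟩
        rw [hZ] at c
        rw [a.2.1] at e
        generalize ψ.getD (p 0).2.1 (m, m, m) = C at *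
        generalize p k = u, p (k + 1) = v, (p 0).2.1 = i at *
        obtain ⟨u1, u2, u3⟩ := u
        obtain ⟨v1, v2, v3⟩ := v
        simp only [chord, nxt, prv, T3.vars, List.mem_cons] at a c e ⊢
        clear h ih hZ deg inj hp h1 d0 d1 Z
        grind (splits := 40)
      · refine .inr ⟨l + 1, rfl, ?_⟩
        have := mt (inj l (by omega) (l + 1 + 1) (by omega)) (by omega)
        generalize ψ.getD (p (l + 1)).2.1 (m, m, m) = C at *
        generalize p l = w, p (l + 1) = u, p (l + 1 + 1) = v at *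
        obtain ⟨u1, u2, u3⟩ := u
        obtain ⟨v1, v2, v3⟩ := v
        simp only [chord, nxt, prv] at h e ⊢
        clear ih hZ deg inj hp h1 d0 d1 Z
        grind (splits := 40)
  rcases inv j le_rfl with h | ⟨l, -, h⟩
  · have := Finset.card_le_card_of_injOn (s := Finset.range (j + 1)) (t := Z) p
      (fun l hl => h l (by simpa [Nat.lt_succ_iff] using hl))
      fun a ha b hb => inj a (by simp at ha; omega) b (by simp at hb; omega)
    have b : (m :: (ψ.getD (p 0).2.1 (m, m, m)).vars).toFinset.card ≤ 4 := List.toFinset_card_le _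
    simp only [Z, Finset.card_product, Finset.card_range, Finset.card_singleton, Nat.card_Ico] at this
    rw [show j + 9 - (j + 1) = 8 by omega] at this
    omega
  · omega

end Pool.Agent.H.MP_2e8011_lc
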