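import Pool.Agent.H.MP_2e8011_lc.A

namespace Pool.Agent.H.MP_2e8011_lc
open Pool.Agent.Lib.CX Pool.Agent.Lib.helper7

set_option synthInstance.maxSize 4000

abbrev W := ℕ × ℕ × Bool × ℕ

def lnk (M x : ℕ) (s : Bool) (t : ℕ) : W := (2, x, s && decide (t < M), t)

def lits (C : Cl3 ℕ) : List (ℕ × Bool) := [C.1, C.2.1, C.2.2]

def cl (φ : List (Cl3 ℕ)) (x : ℕ) (s : Bool) (t : ℕ) : T3 W :=
  (if (x, s) ∈ lits (φ.getD t (unit 0 true)) then (1, t, true, 0) else lnk φ.length x s t,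
    lnk φ.length x s t, lnk φ.length x s (t + 1))

def psi (φ : List (Cl3 ℕ)) : List (T3 W) :=
  ((((3, 0, true, 0), (3, 0, true, 0), (3, 0, true, 0)) : T3 W) ::
    (List.range (3 * φ.length) ×ˢ [true, false]).flatMap fun z =>
      (lnk φ.length z.1 z.2 0, lnk φ.length z.1 z.2 0, lnk φ.length z.1 z.2 0) ::
        (List.range φ.length).map (cl φ z.1 z.2)).dedup

theorem pt_psi : PT psi := by unfold psi cl lnk lits unit; fun_prop

theorem mem_psi {φ D} : D ∈ psi φ ↔ D = ((3, 0, true, 0), (3, 0, true, 0), (3, 0, true, 0)) ∨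
    ∃ x < 3 * φ.length, ∃ s, D = (lnk φ.length x s 0, lnk φ.length x s 0, lnk φ.length x s 0) ∨
      ∃ t < φ.length, cl φ x s t = D := by
  simp only [psi, List.mem_dedup, List.mem_cons, List.mem_flatMap, List.mem_map, List.mem_range, Prod.exists,
    List.mem_product]
  refine or_congr Iff.rfl ⟨fun ⟨x, s, ⟨a, _⟩, b⟩ => ⟨x, a, s, b⟩, fun ⟨x, a, s, b⟩ => ⟨x, s, ⟨a, ?_⟩, b⟩⟩
  cases s <;> simp

theorem cover_iff {V : Type} [DecidableEq V] {m : V} {ψ : List (T3 V)} (h : ψ.Nodup) :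
    Cover m ψ ↔ ∃ y : T3 V → Prop, ∀ C ∈ ψ, ∀ r ∈ C.vars, ∃ D ∈ ψ,
      (¬y D ∧ (D.1 = r ∨ D.2.1 = r)) ∨ (y D ∧ D.2.2 = r) := by
  constructor
  · rintro ⟨y, hy⟩
    refine ⟨fun D => y (ψ.idxOf D), fun C hC r hr => ?_⟩
    obtain ⟨i, hi, e⟩ := hy r (List.mem_flatMap.2 ⟨C, hC, hr⟩)
    rw [List.getD_eq_getElem _ _ hi] at e
    exact ⟨ψ[i], List.getElem_mem _, by beta_reduce; rwa [h.idxOf_getElem]⟩
  · rintro ⟨y, hy⟩
    refine ⟨fun i => y (ψ.getD i (m, m, m)), fun r hr => ?_⟩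
    obtain ⟨C, hC, hr⟩ := List.mem_flatMap.1 hr
    obtain ⟨D, hD, e⟩ := hy C hC r hr
    obtain ⟨i, hi, rfl⟩ := List.getElem_of_mem hD
    exact ⟨i, hi, by beta_reduce; rwa [List.getD_eq_getElem _ _ hi]⟩

theorem lnk_inj {M x x' s s' t t'} (h : lnk M x s t = lnk M x' s' t') : x = x' ∧ (s = s' ∨ M ≤ t) ∧ t = t' := by
  simp only [lnk, Prod.mk.injEq, true_and] at h
  obtain ⟨rfl, h, rfl⟩ := h
  by_cases c : t < M
  · simpa [c] using .inl (by simpa [c] using h)
  · simpa using .inr (by omega)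

theorem ok_lits (v : ℕ → Bool) (C : Cl3 ℕ) : C.ok v ↔ ∃ z ∈ lits C, v z.1 = z.2 := by simp [Cl3.ok, lits]

theorem sat_iff (φ : List (Cl3 ℕ)) (hφ : ∀ C ∈ φ, ∀ x ∈ C.vars, x < 3 * φ.length) :
    Sat3 φ ↔ Cover (0, 0, true, 0) (psi φ) := by
  rw [cover_iff (ψ := psi φ) (List.nodup_dedup _)]
  have hl : ∀ t < φ.length, ∀ z ∈ lits (φ.getD t (unit 0 true)), z.1 < 3 * φ.length := fun t ht z hz => by
    rw [List.getD_eq_getElem _ _ ht] at hz
    refine hφ _ (List.getElem_mem ht) _ ?_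
    simp only [lits, Cl3.vars, List.mem_cons] at hz ⊢
    grind
  have mc : ∀ x < 3 * φ.length, ∀ s, ∀ t < φ.length, cl φ x s t ∈ psi φ := fun x hx s t ht =>
    mem_psi.2 (.inr ⟨x, hx, s, .inr ⟨t, ht, rfl⟩⟩)
  constructor
  · rintro ⟨v, hv⟩
    refine ⟨fun D => v D.2.1.2.1 ≠ D.2.1.2.2.1, fun C hC r hr => ?_⟩
    have key : ∀ x < 3 * φ.length, ∀ s, ∀ t ≤ φ.length, ∃ D ∈ psi φ,
        (¬v D.2.1.2.1 ≠ D.2.1.2.2.1 ∧ (D.1 = lnk φ.length x s t ∨ D.2.1 = lnk φ.length x s t)) ∨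
          (v D.2.1.2.1 ≠ D.2.1.2.2.1 ∧ D.2.2 = lnk φ.length x s t) := fun x hx s t ht => by
      rcases t with _ | t
      · exact ⟨_, mem_psi.2 (.inr ⟨x, hx, s, .inl rfl⟩), by tauto⟩
      by_cases c : t + 1 = φ.length
      · exact ⟨_, mc x hx (!v x) t ht, .inr (by simp [cl, lnk, c, show t < φ.length from ht])⟩
      by_cases d : v x = s
      · exact ⟨_, mc x hx s (t + 1) (by omega), .inl (by simp [cl, lnk, d, show t + 1 < φ.length by omega])⟩
      · exact ⟨_, mc x hx s t ht, .inr (by simp [cl, lnk, d, show t < φ.length from ht])⟩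
    rcases mem_psi.1 hC with rfl | ⟨x, hx, s, rfl | ⟨t, ht, rfl⟩⟩
    · exact ⟨_, hC, by simp [T3.vars] at hr; tauto⟩
    · exact ⟨_, hC, by simp [T3.vars] at hr; tauto⟩
    simp only [T3.vars, cl, List.mem_cons, List.not_mem_nil, or_false] at hr
    rcases hr with rfl | rfl | rfl
    · split
      · obtain ⟨z, hz, e⟩ := (ok_lits _ _).1 (hv (φ.getD t (unit 0 true))
          (by rw [List.getD_eq_getElem _ _ ht]; exact List.getElem_mem _))
        exact ⟨_, mc z.1 (hl t ht z hz) z.2 t ht, .inl (by simp only [cl, hz, lnk, if_true]; simp [e, ht])⟩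
      · exact key x hx s t ht.le
    · exact key x hx s t ht.le
    · exact key x hx s _ ht
  · rintro ⟨y, hy⟩
    classical
    have step : ∀ x < 3 * φ.length, ∀ s, ∀ t < φ.length, (∃ s', (s' = s ∨ t + 1 = φ.length) ∧ y (cl φ x s' t)) ∨
        (t + 1 < φ.length ∧ ¬y (cl φ x s (t + 1))) := fun x hx s t ht => by
      obtain ⟨D, hD, e⟩ := hy _ (mc x hx s t ht) (lnk φ.length x s (t + 1)) (by simp [T3.vars, cl])
      rcases mem_psi.1 hD with rfl | ⟨x', hx', s', rfl | ⟨t', ht', rfl⟩⟩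
      · simp [lnk] at e
      · simp [lnk] at e
      rcases e with ⟨a, b⟩ | ⟨a, b⟩
      · have : lnk φ.length x' s' t' = lnk φ.length x s (t + 1) := by
          simp only [cl] at b
          split_ifs at b
          exacts [b.resolve_left (by simp [lnk]), b.elim id id]
        obtain ⟨rfl, rfl | c, rfl⟩ := lnk_inj this
        exacts [.inr ⟨ht', a⟩, by omega]
      · obtain ⟨rfl, d, c⟩ := lnk_inj b
        obtain rfl : t' = t := by omega
        exact .inl ⟨s', d.imp id (by omega), a⟩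
    have chain : ∀ x < 3 * φ.length, ∀ s k t, t + k + 1 = φ.length → ¬y (cl φ x s t) →
        ¬y (cl φ x s (φ.length - 1)) := fun x hx s k => by
      induction k with
      | zero => exact fun t e h => by rwa [← e]
      | succ k ih =>
        intro t e h
        rcases step x hx s t (by omega) with ⟨s', rfl | b, a⟩ | ⟨_, a⟩
        exacts [absurd a h, by omega, ih (t + 1) (by omega) a]
    refine ⟨fun x => decide ¬y (cl φ x true (φ.length - 1)), fun C hC => ?_⟩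
    obtain ⟨t, ht, rfl⟩ := List.getElem_of_mem hC
    rw [← List.getD_eq_getElem _ (unit 0 true) ht, ok_lits]
    have h1 : (φ.getD t (unit 0 true)).1 ∈ lits (φ.getD t (unit 0 true)) := List.mem_cons_self
    obtain ⟨D, hD, e⟩ := hy _ (mc _ (hl t ht _ h1) (φ.getD t (unit 0 true)).1.2 t ht) (1, t, true, 0)
      (by simp only [T3.vars, cl, h1, if_true]; simp)
    rcases mem_psi.1 hD with rfl | ⟨x, hx, s, rfl | ⟨t', ht', rfl⟩⟩
    · simp at e
    · simp [lnk] at e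
    obtain ⟨a, rfl, b⟩ : ¬y (cl φ x s t') ∧ t' = t ∧ (x, s) ∈ lits (φ.getD t' (unit 0 true)) := by
      generalize y (cl φ x s t') = q at e
      simp only [cl, lnk] at e
      split_ifs at e with c
      · exact ⟨by simp at e; exact e.1, by simp at e; exact e.2, c⟩
      · simp at e
    refine ⟨_, b, ?_⟩
    have c := chain x hx s (φ.length - 1 - t') t' (by omega) a
    cases s
    · rcases step x hx true (φ.length - 1) (by omega) with ⟨s', -, d⟩ | ⟨d, -⟩
      · cases s'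
        exacts [absurd d c, by simpa using d]
      · omega
    · simpa using c

theorem psi_pos (φ) : 0 < (psi φ).length := List.length_pos_of_mem (mem_psi.2 (.inl rfl))

theorem not_mem_psi (φ) : ((0, 0, true, 0) : W) ∉ (psi φ).flatMap T3.vars := by
  simp only [List.mem_flatMap, not_exists, not_and]
  intro D hD
  rcases mem_psi.1 hD with rfl | ⟨x, hx, s, rfl | ⟨t', ht', rfl⟩⟩
  · simp [T3.vars]
  · simp [T3.vars, lnk]
  · simp only [T3.vars, cl, lnk]; split_ifs <;> simp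

theorem red (j : ℕ) (hj : 1 ≤ j) (φ : List (Cl3 ℕ)) (hφ : ∀ C ∈ φ, ∀ x ∈ C.vars, x < 3 * φ.length) :
    Sat3 φ ↔ Ham (gr (0, 0, true, 0) j (psi φ)).G :=
  (sat_iff φ hφ).trans ⟨ham_of_cover (not_mem_psi φ) (psi_pos φ), cover_of_ham hj (not_mem_psi φ)⟩

end Pool.Agent.H.MP_2e8011_lc
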